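import Pool.Agent.Helper30.OWN.RCM

/-!
# The Lieb inequality for random-cluster measures with cluster weight between 1 and 2,
on finite multigraphs with edge dependent probabilities

A finite multigraph is a finite vertex type `V`, a finite type `ι` of edges and the map `ends` which
sends an edge to its unordered pair of end vertices; loops and parallel edges are allowed. The edge
`e` has its own probability `p e` in `[0,1]` (so boundary conditions can be encoded by edges with
`p e = 1`).
-/

set_option autoImplicit false

open Finset

namespace Pool.Agent.Results.MP_0b6541_pr.LiebMultigraph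

open Classical

universe u v

/-- The graph of the open edges: two distinct vertices are adjacent when some open edge joins them.
Its components are the components of the spanning subgraph of open edges. -/
def openGraph {V : Type u} {ι : Type v} (ends : ι → Sym2 V) (ω : Finset ι) : SimpleGraph V :=
  SimpleGraph.fromEdgeSet (ends '' (ω : Set ι))

/-- Random-cluster weight of the configuration `ω` on the multigraph with edge set `F`. -/
noncomputable def weight {V : Type u} {ι : Type v} (ends : ι → Sym2 V) (p : ι → ℝ) (q : ℝ)
    (F ω : Finset ι) : ℝ :=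
  (∏ e ∈ ω, p e) * (∏ e ∈ F \ ω, (1 - p e)) *
    q ^ Nat.card (openGraph ends ω).ConnectedComponent

/-- Expectation of `f` under the random-cluster measure of the multigraph with edge set `F`. -/
noncomputable def expectation {V : Type u} {ι : Type v} (ends : ι → Sym2 V) (p : ι → ℝ) (q : ℝ)
    (F : Finset ι) (f : Finset ι → ℝ) : ℝ :=
  (∑ ω ∈ F.powerset, weight ends p q F ω * f ω) / ∑ ω ∈ F.powerset, weight ends p q F ω

/-- Indicator of the event that `a` and `b` lie in the same open component. -/
noncomputable def connected {V : Type u} {ι : Type v} (ends : ι → Sym2 V) (a b : V)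
    (ω : Finset ι) : ℝ :=
  if (openGraph ends ω).Reachable a b then 1 else 0

theorem expectation_eq {V : Type u} [Fintype V] {ι : Type v} [Fintype ι] (ends : ι → Sym2 V)
    (p : ι → ℝ) (q : ℝ) (F : Finset ι) (f : Finset ι → ℝ) :
    expectation ends p q F f = Pool.Agent.Helper30.RCM.ex ends p q F f := by
  unfold expectation Pool.Agent.Helper30.RCM.ex Pool.Agent.Helper30.RCM.S
  simp only [mul_one]
  rfl

/-- **Lieb inequality for `1 ≤ q ≤ 2`.** Let `W` meet every walk from `x` to `z` in a finite
multigraph and let `F` be the set of edges with at least one end vertex which is not separated from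
`x` by `W`. For every nonnegative decreasing function `N` of the configuration the expectation of
`N` on the event that `x` and `z` are connected is at most the sum over `y` in `W` of the
expectation of `N` on the event that `x` and `y` are connected, for the random-cluster measure of
the subgraph with edge set `F`, times the probability that `y` and `z` are connected. For `N = 1`
this bound is at most the bound of Simon. -/
theorem result {V : Type u} [Fintype V] {ι : Type v} [Fintype ι] (ends : ι → Sym2 V)
    (p : ι → ℝ) (q : ℝ) (hp : ∀ e, 0 ≤ p e ∧ p e ≤ 1) (hq : 1 ≤ q ∧ q ≤ 2)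
    (x z : V) (W : Finset V)
    (hsep : ∀ w : (openGraph ends univ).Walk x z, ∃ y ∈ W, y ∈ w.support)
    (F : Finset ι)
    (hF : ∀ e, e ∈ F ↔ ∃ v ∈ ends e, ∃ w : (openGraph ends univ).Walk x v,
      ∀ y ∈ w.support, y ∉ W) :
    (∀ N : Finset ι → ℝ, (∀ ω, 0 ≤ N ω) → Antitone N →
      expectation ends p q univ (fun ω => N ω * connected ends x z ω) ≤
        ∑ y ∈ W, expectation ends p q F (fun ω => N ω * connected ends x y ω) *
          expectation ends p q univ (connected ends y z)) ∧
    (∑ y ∈ W, expectation ends p q F (connected ends x y) *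
        expectation ends p q univ (connected ends y z) ≤
      ∑ y ∈ W, expectation ends p q univ (connected ends x y) *
        expectation ends p q univ (connected ends y z)) := by
  have hp0 : ∀ e, 0 ≤ p e := fun e => (hp e).1
  have hp1 : ∀ e, p e ≤ 1 := fun e => (hp e).2
  obtain ⟨hq1, hq2⟩ := hq
  have hconn : ∀ a b : V, connected ends a b = Pool.Agent.Helper30.RCM.ind ends a b :=
    fun a b => rfl
  set U : Set V := {v | ∃ w : (openGraph ends univ).Walk x v, ∀ y ∈ w.support, y ∉ W} with hU
  have hzU : z ∉ U := by
    rintro ⟨w, hw⟩
    obtain ⟨y, hy, hyw⟩ := hsep w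
    exact hw y hyw hy
  have hxU : x ∈ U ∨ x ∈ W := by
    by_cases hxW : x ∈ W
    · exact Or.inr hxW
    · left
      refine ⟨SimpleGraph.Walk.nil, ?_⟩
      intro y hy
      rw [SimpleGraph.Walk.support_nil, List.mem_singleton] at hy
      rw [hy]; exact hxW
  have hK : ∀ e ∈ Fᶜ, ∀ v ∈ ends e, v ∉ U := by
    intro e he v hv hvU
    exact (Finset.mem_compl.mp he) ((hF e).mpr ⟨v, hv, hvU⟩)
  have hFW : ∀ e ∈ F, ∀ v ∈ ends e, v ∈ U ∨ v ∈ W := by
    intro e he v hv
    obtain ⟨u, hue, w, hw⟩ := (hF e).mp he
    by_cases huv : u = v
    · exact Or.inl (huv ▸ ⟨w, hw⟩)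
    · have hadj : (openGraph ends univ).Adj u v := by
        have h1 : ends e = s(u, v) := ((Sym2.mem_and_mem_iff huv).mp ⟨hue, hv⟩)
        rw [openGraph, SimpleGraph.fromEdgeSet_adj]
        exact ⟨⟨e, by simp, h1⟩, huv⟩
      by_cases hvW : v ∈ W
      · exact Or.inr hvW
      · left
        refine ⟨w.concat hadj, ?_⟩
        intro y hy
        rw [SimpleGraph.Walk.support_concat] at hy
        rw [List.mem_append, List.mem_singleton] at hy
        rcases hy with hy | rfl
        · exact hw y hy
        · exact hvW
  have hunion : F ∪ Fᶜ = univ := Finset.union_compl F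
  refine ⟨fun N hN0 hN => ?_, ?_⟩
  · have key := Pool.Agent.Helper30.RCM.lieb_aux (φ := ends) hp0 hp1 hq1 hq2 hK hzU F.card F
      le_rfl hFW disjoint_compl_right N hN0 hN x hxU
    rw [hunion] at key
    simp only [expectation_eq, hconn]
    exact key
  · refine Finset.sum_le_sum fun y _ => ?_
    simp only [expectation_eq, hconn]
    refine mul_le_mul_of_nonneg_right ?_
      (Pool.Agent.Helper30.RCM.ex_nonneg hp0 hp1 hq1 _
        (Pool.Agent.Helper30.RCM.ind_nonneg y z))
    have := Pool.Agent.Helper30.RCM.ex_union_mono (φ := ends) hp0 hp1 hq1 F Fᶜ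
      (Pool.Agent.Helper30.RCM.ind_nonneg (φ := ends) x y)
      (Pool.Agent.Helper30.RCM.ind_mono x y)
    rw [hunion] at this
    exact this

end Pool.Agent.Results.MP_0b6541_pr.LiebMultigraph
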